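import Pool.Agent.Y527.ZA.Stm
set_option autoImplicit false

/-! Vanishing of an integer polynomial at a primitive root of unity in terms of congruences
(project ZA of helper527, job VAN; helper777). -/

namespace Pool.Agent.Y777.ZA

open Polynomial NumberField
open Pool.Agent.H358R3 Pool.Agent.Y527.ZA

lemma cyc_root (N : ℕ) (hN : N ≠ 0) : aeval (zR N hN) (cyclotomic N ℤ) = 0 := by
  have h := (zR_prim N hN).isRoot_cyclotomic (Nat.pos_of_ne_zero hN)
  rw [IsRoot.def, ← map_cyclotomic_int N Zab, eval_map] at h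
  rw [aeval_def]
  exact h

lemma dvd_of_aeval (F : ℤ[X]) (N : ℕ) (hN : N ≠ 0) (h : aeval (zR N hN) F = 0) :
    cyclotomic N ℤ ∣ F := by
  have h1 : aeval (zt N) F = 0 := by
    have h2 := hom_rep inc (zR N hN) F
    rw [h, map_zero, inc_zR] at h2
    exact h2.symm
  rw [cyclotomic_eq_minpoly (zt_prim N hN) (Nat.pos_of_ne_zero hN)]
  exact minpoly.isIntegrallyClosed_dvd ((zt_prim N hN).isIntegral (Nat.pos_of_ne_zero hN)) h1

lemma h_fwd (F : ℤ[X]) (N : ℕ) (hN : N ≠ 0) (h : aeval (zR N hN) F = 0) (p a : ℕ) (hp : p.Prime)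
    (ha : orderOf (a : ZMod p) = N) : (p : ℤ) ∣ F.eval (a : ℤ) := by
  haveI : Fact p.Prime := ⟨hp⟩
  obtain ⟨G, rfl⟩ := dvd_of_aeval F N hN h
  have h1 : IsPrimitiveRoot (a : ZMod p) N := by
    rw [← ha]
    exact IsPrimitiveRoot.orderOf _
  have h2 := h1.isRoot_cyclotomic (Nat.pos_of_ne_zero hN)
  rw [IsRoot.def, ← map_cyclotomic_int N (ZMod p), eval_map] at h2
  have h3 := eval₂_at_apply (p := cyclotomic N ℤ) (Int.castRingHom (ZMod p)) (a : ℤ)
  rw [eq_intCast, Int.cast_natCast, h2, eq_intCast] at h3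
  rw [eval_mul]
  exact ((ZMod.intCast_zmod_eq_zero_iff_dvd _ _).1 h3.symm).mul_right _

theorem h_VAN : s_VAN := by
  intro F N hN
  refine ⟨fun h p a hp ha => h_fwd F N hN h p a hp ha, fun H => ?_⟩
  by_contra hy
  obtain ⟨m, hm, hdvd⟩ := exists_int_mul _ hy
  obtain ⟨p, hp, hpm, hmod⟩ := Nat.exists_prime_gt_modEq_one m.natAbs hN
  haveI : Fact p.Prime := ⟨hp⟩
  have hNp : N ∣ p - 1 := (Nat.modEq_iff_dvd' hp.one_lt.le).1 hmod.symm
  have h0 : ¬ ∃ u v : Zab, u * p + v * 0 = 1 := by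
    rintro ⟨u, v, h⟩
    have h1 : ((p : ℤ) : Zab) ∣ ((1 : ℤ) : Zab) := ⟨u, by push_cast; linear_combination -h⟩
    have h2 := int_dvd (by exact_mod_cast hp.ne_zero) h1
    have h3 := Int.eq_one_of_dvd_one (Int.natCast_nonneg _) h2
    exact hp.one_lt.ne' (by exact_mod_cast h3)
  obtain ⟨P, hP, hpP, -⟩ := exists_max h0
  let _ := Ideal.Quotient.field P
  have hchar : CharP (Zab ⧸ P) p := by
    have h1 : ((p : ℕ) : Zab ⧸ P) = 0 := by
      rw [← map_natCast (Ideal.Quotient.mk P)]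
      exact Ideal.Quotient.eq_zero_iff_mem.2 hpP
    exact (CharP.charP_iff_prime_eq_zero hp).2 h1
  set q := Ideal.Quotient.mk P with hq
  have hzN : (q (zR N hN)) ^ N = 1 := by
    rw [← map_pow, (zR_prim N hN).pow_eq_one, map_one]
  obtain ⟨t, ht⟩ := hNp
  have hpt : p = N * t + 1 := by
    have := hp.one_lt
    omega
  have hzp : (q (zR N hN)) ^ p = q (zR N hN) := by
    rw [hpt, pow_succ, pow_mul, hzN, one_pow, one_mul]
  obtain ⟨a, ha⟩ := mem_prime_field p hp _ hzp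
  have hroot : IsRoot (cyclotomic N (Zab ⧸ P)) (q (zR N hN)) := by
    rw [IsRoot.def, ← map_cyclotomic_int N (Zab ⧸ P), eval_map]
    have h1 := congrArg q (cyc_root N hN)
    rw [map_zero, aeval_def, hom_eval₂] at h1
    rw [← h1]
    congr 1
  have hNk : NeZero ((N : ℕ) : Zab ⧸ P) := by
    refine ⟨fun h => ?_⟩
    have h1 := (CharP.cast_eq_zero_iff (Zab ⧸ P) p N).1 h
    have h2 := Nat.le_of_dvd (Nat.pos_of_ne_zero hN) h1
    have h3 : 0 < t := by
      rcases Nat.eq_zero_or_pos t with h4 | h4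
      · rw [h4, Nat.mul_zero] at hpt
        exact absurd hpt hp.one_lt.ne'
      · exact h4
    have h5 : N * 1 ≤ N * t := Nat.mul_le_mul_left _ h3
    omega
  have hprim : IsPrimitiveRoot (q (zR N hN)) N := isRoot_cyclotomic_iff.1 hroot
  have hprim2 : IsPrimitiveRoot (a : ZMod p) N := by
    rw [ha] at hprim
    have h1 : ((a : ℕ) : Zab ⧸ P) = ZMod.castHom (dvd_refl p) (Zab ⧸ P) (a : ZMod p) := by
      rw [map_natCast]
    rw [h1] at hprim
    exact hprim.of_map_of_injective (RingHom.injective _)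
  have hdiv := H p a hp hprim2.eq_orderOf.symm
  have hyP : aeval (zR N hN) F ∈ P := by
    rw [← Ideal.Quotient.eq_zero_iff_mem, aeval_def, hom_eval₂]
    have h1 : (Ideal.Quotient.mk P).comp (algebraMap ℤ Zab) = Int.castRingHom (Zab ⧸ P) :=
      RingHom.ext_int _ _
    rw [h1, ← hq, ha]
    have h2 := eval₂_at_apply (p := F) (Int.castRingHom (Zab ⧸ P)) (a : ℤ)
    rw [eq_intCast, Int.cast_natCast, eq_intCast] at h2
    rw [h2]
    exact (CharP.intCast_eq_zero_iff (Zab ⧸ P) p _).2 hdiv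
  have hmP : (m : Zab) ∈ P := P.mem_of_dvd hdvd hyP
  have hcop : IsCoprime (p : ℤ) m := by
    rw [Int.isCoprime_iff_gcd_eq_one, Int.gcd, Int.natAbs_natCast]
    exact (Nat.Prime.coprime_iff_not_dvd hp).2 fun h =>
      absurd (Nat.le_of_dvd (Int.natAbs_pos.2 hm) h) (by omega)
  obtain ⟨u, v, huv⟩ := hcop
  apply hP.ne_top
  rw [Ideal.eq_top_iff_one]
  have h1 : (1 : Zab) = (u : Zab) * (p : Zab) + (v : Zab) * (m : Zab) := by
    have := congrArg (Int.cast : ℤ → Zab) huv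
    push_cast at this
    exact this.symm
  rw [h1]
  exact P.add_mem (P.mul_mem_left _ hpP) (P.mul_mem_left _ hmP)

end Pool.Agent.Y777.ZA
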